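import Pool.Agent.TH997.DD.Fin2
import Pool.Agent.TH997.DD.SNDS
import Pool.Agent.TH997.DD.KRS
import Pool.Agent.TH997.DD.CLE
import Pool.Agent.TH997.DD.CLT
import Pool.Agent.TH997.DD.RESA
import Pool.Agent.TH997.DD.RESB
import Pool.Agent.TH997.DD.RESC
import Pool.Agent.TH997.DD.LIO
import Pool.Agent.TH997.DD.CTE
import Pool.Agent.TH997.DD.REM
import Pool.Agent.TH997.DD.TAM
import Pool.Agent.TH997.DD.ASYM
import Pool.Agent.TH997.DD.NV
import Pool.Agent.TH997.DD.GRW
import Pool.Agent.TH997.DD.EXC

/-!
# Positivity of linear recurrences of any order, up to a sparse set of indices

For every rational linear recurrence sequence (any order, multiple characteristic roots allowed)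
the set of the indices of the terms which are not positive either has bounded gaps, or has at most
`C N / (log N) ^ (2 ^ (-k))` elements below `N`, where `k` is the order. Which of the two cases
holds is decided by a polynomial time reduction to the existential theory of the reals. If the
recurrence is not tight, or its multiple roots are small, or it is tame, the second case means that
all but finitely many terms are positive.

The negative terms of an integer recurrence `u` are the nonpositive terms of the recurrence
`u + 1`.
-/

set_option autoImplicit false

namespace Pool.Agent.Results.MP_5326a7_lc.SyndeticOrSparse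

open Pool.Agent.NPC Pool.Agent.NPC.ER Pool.Agent.H612.LR Pool.Agent.TH997.DD
open Pool.Agent.TH286.GT.Main

/-- There is a polynomial time reduction `f` from linear recurrences over `ℚ` to sentences of the
existential theory of the reals such that, for every recurrence `l`: if `f(l)` is true then the
nonpositive terms have bounded gaps; if `f(l)` is false then the nonpositive terms are sparse;
these cases exclude each other; and in the second case almost all terms are positive if `l` is not
tight, or its multiple characteristic roots are small, or it is tame. -/
theorem result : ∃ f : List Bool → Fm, PolyTime (fun w => bits (f w)) ∧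
    ∀ l : Rec, l ≠ [] →
      (ETR (f (bits l)) → Synd l) ∧ (¬ ETR (f (bits l)) → Sparse l) ∧ ¬ (Synd l ∧ Sparse l) ∧
      ((NonTight l ∨ SmallMultipleRoots l ∨ Tame l) → ¬ ETR (f (bits l)) → UltPositive l) := by
  obtain ⟨f, hf, h⟩ := Pool.Agent.TH997.DD.Fin2.main_str (snds krs)
    (cle resa resb (resc lio) (cte rem)) (clt resa (tam asym nv (resc lio)) grw)
  refine ⟨f, hf, fun l hl => ⟨(h l hl).1, (h l hl).2.1, fun hc => exc l hc.1 hc.2, ?_⟩⟩
  intro hcl hno
  by_contra hup
  exact hno ((h l hl).2.2 hcl hup)

end Pool.Agent.Results.MP_5326a7_lc.SyndeticOrSparse
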